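import Pool.Agent.Lib.MP_fe6546_nt.Indep

/-!
# Positive linear forms with exponent below two in every dimension

For every `m ≥ 1` there is `θ ∈ ℝ^m` with `1, θ_1, …, θ_m` linearly independent over `ℤ` and
`ω_+(θ) ≤ 7/4`.
-/

open Filter

namespace Pool.Agent.Results.MP_fe6546_nt.AllDimensions

/-- `ψ_{+;θ}(t)`: the minimum of the distance of `θ_1 x_1 + … + θ_m x_m` to the nearest integer over
all integer vectors `x` with `1 ≤ x_i ≤ t`. -/
noncomputable def psiPlus {m : ℕ} (θ : Fin m → ℝ) (t : ℝ) : ℝ :=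
  sInf {y : ℝ | ∃ x : Fin m → ℕ, (∀ i, 1 ≤ x i ∧ (x i : ℝ) ≤ t) ∧
    y = |(∑ i, θ i * (x i : ℝ)) - (round (∑ i, θ i * (x i : ℝ)) : ℝ)|}

/-- `ω_+(θ)`: the supremum of the real `γ` such that `liminf_{t → ∞} t ^ γ * ψ_{+;θ}(t) < ∞`. -/
noncomputable def omegaPlus {m : ℕ} (θ : Fin m → ℝ) : EReal :=
  sSup {g : EReal | ∃ γ : ℝ, g = (γ : EReal) ∧
    liminf (fun t : ℝ => ((t ^ γ * psiPlus θ t : ℝ) : EReal)) atTop < ⊤}

open Agent.Lib.MP_fe6546_nt in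
/-- For every `m ≥ 1` there is `θ ∈ ℝ^m` with `1, θ_1, …, θ_m` independent over `ℤ` and
`ω_+(θ) ≤ 7/4 < 2`. -/
theorem result (m : ℕ) (hm : 1 ≤ m) :
    ∃ ϑ : Fin m → ℝ, LinearIndependent ℤ (Fin.cons (1 : ℝ) ϑ : Fin (m + 1) → ℝ) ∧
      omegaPlus ϑ ≤ ((7 / 4 : ℝ) : EReal) := by
  refine ⟨θ m, linearIndependent_cons hm, ?_⟩
  apply sSup_le
  rintro g ⟨γ, rfl, hlim⟩
  rw [EReal.coe_le_coe_iff]
  by_contra hcon
  push Not at hcon
  have hmr : (0 : ℝ) < m := by exact_mod_cast hm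
  have hlow : ∀ t : ℝ, 1 ≤ t →
      t ^ (γ - 7 / 4) * (1 / (512 * (m : ℝ) ^ (7 / 4 : ℝ))) ≤ t ^ γ * psiPlus (θ m) t := by
    intro t ht
    have ht0 : 0 < t := by linarith
    have h1 : 1 / (512 * ((m : ℝ) * t) ^ (7 / 4 : ℝ)) ≤ psiPlus (θ m) t := by
      apply le_csInf
      · exact ⟨_, fun _ => 1, fun i => ⟨le_rfl, by simpa using ht⟩, rfl⟩
      · rintro y ⟨x, hx, rfl⟩
        exact bound_t hm x t hx _
    have h2 : t ^ γ * (1 / (512 * ((m : ℝ) * t) ^ (7 / 4 : ℝ))) =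
        t ^ (γ - 7 / 4) * (1 / (512 * (m : ℝ) ^ (7 / 4 : ℝ))) := by
      rw [Real.mul_rpow hmr.le ht0.le, Real.rpow_sub ht0]
      field_simp
    rw [← h2]
    gcongr
  have htend : Tendsto (fun t : ℝ => t ^ γ * psiPlus (θ m) t) atTop atTop := by
    have h1 : Tendsto (fun t : ℝ => t ^ (γ - 7 / 4) * (1 / (512 * (m : ℝ) ^ (7 / 4 : ℝ))))
        atTop atTop := by
      apply Tendsto.atTop_mul_const
      · positivity
      · exact tendsto_rpow_atTop (by linarith)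
    exact tendsto_atTop_mono' _ ((eventually_ge_atTop (1 : ℝ)).mono hlow) h1
  have htop : Tendsto (fun t : ℝ => ((t ^ γ * psiPlus (θ m) t : ℝ) : EReal)) atTop (nhds ⊤) :=
    EReal.tendsto_coe_nhds_top_iff.mpr htend
  rw [htop.liminf_eq] at hlim
  exact lt_irrefl _ hlim

end Pool.Agent.Results.MP_fe6546_nt.AllDimensions
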